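import Pool.Agent.Helper27.BEL.Defs

/-!
BEL3: composition of constraint hypergraphs.
-/

set_option autoImplicit false

namespace Pool.Agent.Helper51.BEL

open Pool.Agent.Helper27.BEL

variable {t : ℕ}

/-- The copy of index `j` of the points of `E`, with `u`, `w` identified with `a j`, `b j`. -/
def emb (E A0 : Inst t) {J : Type} (a b : J → A0.Z) (u w : E.Z) (j : J) (z : E.Z) :
    A0.Z ⊕ (J × E.Z) :=
  if z = u then Sum.inl (a j) else if z = w then Sum.inl (b j) else Sum.inr (j, z)

theorem emb_inl {E A0 : Inst t} {J : Type} {a b : J → A0.Z} {u w : E.Z} {j : J} {z : E.Z}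
    {y : A0.Z} (h : emb E A0 a b u w j z = Sum.inl y) : z = u ∨ z = w := by
  unfold emb at h
  split_ifs at h with h1 h2
  · exact Or.inl h1
  · exact Or.inr h2

theorem emb_inr {E A0 : Inst t} {J : Type} {a b : J → A0.Z} {u w : E.Z} {j j' : J} {z z' : E.Z}
    (h : emb E A0 a b u w j z = Sum.inr (j', z')) : j = j' ∧ z = z' := by
  unfold emb at h
  split_ifs at h with h1 h2
  have h3 := Sum.inr.inj h
  exact ⟨congrArg Prod.fst h3, congrArg Prod.snd h3⟩

theorem emb_other {E A0 : Inst t} {J : Type} {a b : J → A0.Z} {u w : E.Z} {j : J} {z : E.Z}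
    (h1 : z ≠ u) (h2 : z ≠ w) : emb E A0 a b u w j z = Sum.inr (j, z) := by
  unfold emb
  rw [if_neg h1, if_neg h2]

theorem emb_injective {E A0 : Inst t} {J : Type} {a b : J → A0.Z} {u w : E.Z} (j : J)
    (hab : a j ≠ b j) : Function.Injective (emb E A0 a b u w j) := by
  intro z z' h
  unfold emb at h
  split_ifs at h with h1 h2 h3 h4 h5 h6
  · rw [h1, h2]
  · exact absurd (Sum.inl.inj h) hab
  · exact absurd (Sum.inl.inj h).symm hab
  · rw [h4, h6]
  · exact congrArg Prod.snd (Sum.inr.inj h)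

/-- The composed instance. -/
def comp (E A0 : Inst t) (J : Type) [Fintype J] [DecidableEq J] (a b : J → A0.Z) (u w : E.Z)
    (hab : ∀ j, a j ≠ b j) : Inst t where
  Z := A0.Z ⊕ (J × E.Z)
  I := A0.I ⊕ (J × E.I)
  e := Sum.elim (fun i x => Sum.inl (A0.e i x)) (fun ji x => emb E A0 a b u w ji.1 (E.e ji.2 x))
  inj := by
    rintro (i | ⟨j, i⟩)
    · exact fun x y h => A0.inj i (Sum.inl.inj h)
    · exact fun x y h => E.inj i (emb_injective j (hab j) h)

section
variable (E A0 : Inst t) (J : Type) [Fintype J] [DecidableEq J] (a b : J → A0.Z) (u w : E.Z)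
    (hab : ∀ j, a j ≠ b j)

theorem comp_far (m : ℕ) (hfar : E.FarPair m u w) (p q : A0.Z) (hp : A0.FarPair m p q) :
    (comp E A0 J a b u w hab).FarPair m (Sum.inl p) (Sum.inl q) := by
  classical
  refine ⟨fun h => hp.1 (Sum.inl.inj h), ?_⟩
  intro S hS hcard
  by_cases hex : ∃ (j : J) (i : E.I), (Sum.inr (j, i) : A0.I ⊕ (J × E.I)) ∈ S
  · obtain ⟨j, i0, hi0⟩ := hex
    obtain ⟨T, hTm⟩ : ∃ T : Finset E.I, ∀ i, i ∈ T ↔ (Sum.inr (j, i) : A0.I ⊕ (J × E.I)) ∈ S :=
      ⟨Finset.univ.filter fun i => (Sum.inr (j, i) : A0.I ⊕ (J × E.I)) ∈ S, fun i => by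
        rw [Finset.mem_filter]; exact ⟨fun h => h.2, fun h => ⟨Finset.mem_univ _, h⟩⟩⟩
    have hT : T.Nonempty := ⟨i0, (hTm i0).2 hi0⟩
    have hTc : T.card ≤ m := by
      refine le_trans ?_ hcard
      refine Finset.card_le_card_of_injOn (fun i => (Sum.inr (j, i) : A0.I ⊕ (J × E.I))) ?_ ?_
      · intro i hi
        exact (hTm i).1 hi
      · intro i _ i' _ h
        exact congrArg Prod.snd (Sum.inr.inj h)
    obtain ⟨i, hi, hleaf⟩ := hfar.2 T hT hTc
    refine ⟨Sum.inr (j, i), (hTm i).1 hi, ?_⟩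
    have key : ∀ x, (comp E A0 J a b u w hab).Touch S (Sum.inl p) (Sum.inl q) (Sum.inr (j, i)) x →
        E.Touch T u w i x := by
      intro x hx
      have hdec : E.e i x = u ∨ E.e i x = w ∨ (E.e i x ≠ u ∧ E.e i x ≠ w) := by tauto
      rcases hdec with h | h | ⟨h1, h2⟩
      · exact Or.inl h
      · exact Or.inr (Or.inl h)
      · have he : (comp E A0 J a b u w hab).e (Sum.inr (j, i)) x = Sum.inr (j, E.e i x) :=
          emb_other h1 h2
        rcases hx with h | h | ⟨k, hk, hne, y, hy⟩
        · rw [he] at h; exact absurd h (by simp)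
        · rw [he] at h; exact absurd h (by simp)
        · rw [he] at hy
          rcases k with k | ⟨j', i'⟩
          · exact absurd hy (by
              change (Sum.inl (A0.e k y) : A0.Z ⊕ (J × E.Z)) ≠ Sum.inr (j, E.e i x)
              simp)
          · obtain ⟨hj, hz⟩ := emb_inr (show emb E A0 a b u w j' (E.e i' y) =
              Sum.inr (j, E.e i x) from hy)
            subst hj
            refine Or.inr (Or.inr ⟨i', (hTm i').2 hk, ?_, y, hz⟩)
            rintro rfl
            exact hne rfl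
    intro x y hx hy
    exact hleaf x y (key x hx) (key y hy)
  · have hall : ∀ k ∈ S, ∃ i : A0.I, k = (Sum.inl i : A0.I ⊕ (J × E.I)) := by
      rintro (i | ⟨j, i⟩) hk
      · exact ⟨i, rfl⟩
      · exact absurd ⟨j, i, hk⟩ hex
    obtain ⟨T, hTm⟩ : ∃ T : Finset A0.I, ∀ i, i ∈ T ↔ (Sum.inl i : A0.I ⊕ (J × E.I)) ∈ S :=
      ⟨Finset.univ.filter fun i => (Sum.inl i : A0.I ⊕ (J × E.I)) ∈ S, fun i => by
        rw [Finset.mem_filter]; exact ⟨fun h => h.2, fun h => ⟨Finset.mem_univ _, h⟩⟩⟩
    have hT : T.Nonempty := by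
      obtain ⟨k, hk⟩ := hS
      obtain ⟨i, rfl⟩ := hall k hk
      exact ⟨i, (hTm i).2 hk⟩
    have hTc : T.card ≤ m := by
      refine le_trans ?_ hcard
      refine Finset.card_le_card_of_injOn (fun i => (Sum.inl i : A0.I ⊕ (J × E.I))) ?_ ?_
      · intro i hi
        exact (hTm i).1 hi
      · intro i _ i' _ h
        exact Sum.inl.inj h
    obtain ⟨i, hi, hleaf⟩ := hp.2 T hT hTc
    refine ⟨Sum.inl i, (hTm i).1 hi, ?_⟩
    have key : ∀ x, (comp E A0 J a b u w hab).Touch S (Sum.inl p) (Sum.inl q) (Sum.inl i) x →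
        A0.Touch T p q i x := by
      intro x hx
      rcases hx with h | h | ⟨k, hk, hne, y, hy⟩
      · exact Or.inl (Sum.inl.inj h)
      · exact Or.inr (Or.inl (Sum.inl.inj h))
      · obtain ⟨i', rfl⟩ := hall k hk
        refine Or.inr (Or.inr ⟨i', (hTm i').2 hk, ?_, y, Sum.inl.inj hy⟩)
        rintro rfl
        exact hne rfl
    intro x y hx hy
    exact hleaf x y (key x hx) (key y hy)

include hab in
theorem compose (ρ : Set (Fin t → Bool))
    (hcomp : ∀ s ∈ ρ, (fun a => !(s a)) ∈ ρ) (m : ℕ) (β : Bool) (hfar : E.FarPair m u w)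
    (hsat : ∃ χ, E.Sat ρ χ) (hforce : ∀ χ, E.Sat ρ χ → (χ u = χ w ↔ β = true))
    (p q : A0.Z) (hp : A0.FarPair m p q)
    (χ0 : A0.Z → Bool) (h0 : A0.Sat ρ χ0) (hpair : ∀ j, (χ0 (a j) = χ0 (b j) ↔ β = true))
    (P : Prop) (hP : ∀ χ, A0.Sat ρ χ → (∀ j, (χ (a j) = χ (b j) ↔ β = true)) → (χ p = χ q ↔ P)) :
    ∃ (A : Inst t) (p q : A.Z), A.FarPair m p q ∧ (∃ χ, A.Sat ρ χ) ∧
      ∀ χ, A.Sat ρ χ → (χ p = χ q ↔ P) := by
  refine ⟨comp E A0 J a b u w hab, Sum.inl p, Sum.inl q, comp_far E A0 J a b u w hab m hfar p q hp,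
    ?_, ?_⟩
  · obtain ⟨χE, hE⟩ := hsat
    have hex : ∀ j, ∃ ψ : E.Z → Bool, E.Sat ρ ψ ∧ ψ u = χ0 (a j) ∧ ψ w = χ0 (b j) := by
      intro j
      have h1 : ∃ ψ : E.Z → Bool, E.Sat ρ ψ ∧ ψ u = χ0 (a j) := by
        by_cases h : χE u = χ0 (a j)
        · exact ⟨χE, hE, h⟩
        · refine ⟨fun z => !(χE z), fun i => hcomp _ (hE i), ?_⟩
          change (!(χE u)) = χ0 (a j)
          revert h
          cases χE u <;> cases χ0 (a j) <;> simp
      obtain ⟨ψ, hψ, hu⟩ := h1
      refine ⟨ψ, hψ, hu, ?_⟩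
      have h2 := hforce ψ hψ
      have h3 := hpair j
      rw [← h3, hu] at h2
      revert h2
      cases χ0 (a j) <;> cases χ0 (b j) <;> cases ψ w <;> simp
    choose ψ hψ1 hψ2 hψ3 using hex
    refine ⟨Sum.elim χ0 (fun jz => ψ jz.1 jz.2), ?_⟩
    have hcompose : ∀ j z, Sum.elim χ0 (fun jz : J × E.Z => ψ jz.1 jz.2)
        (emb E A0 a b u w j z) = ψ j z := by
      intro j z
      unfold emb
      split_ifs with h1 h2
      · rw [h1, hψ2]; rfl
      · rw [h2, hψ3]; rfl
      · rfl
    rintro (i | ⟨j, i⟩)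
    · exact h0 i
    · have : (fun x => Sum.elim χ0 (fun jz : J × E.Z => ψ jz.1 jz.2)
          ((comp E A0 J a b u w hab).e (Sum.inr (j, i)) x)) = fun x => ψ j (E.e i x) := by
        funext x
        exact hcompose j (E.e i x)
      rw [this]
      exact hψ1 j i
  · intro χ hχ
    refine hP (fun z => χ (Sum.inl z)) (fun i => hχ (Sum.inl i)) ?_
    intro j
    have h1 : E.Sat ρ (fun z => χ (emb E A0 a b u w j z)) := fun i => hχ (Sum.inr (j, i))
    have h2 := hforce _ h1
    have e1 : emb E A0 a b u w j u = Sum.inl (a j) := by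
      unfold emb; rw [if_pos rfl]
    have e2 : emb E A0 a b u w j w = Sum.inl (b j) := by
      unfold emb; rw [if_neg hfar.1.symm, if_pos rfl]
    simp only [e1, e2] at h2
    exact h2

end

/-- Host with one hyperedge. -/
def host1 (t : ℕ) : Inst t where
  Z := Option (Fin t)
  I := Unit
  e := fun _ x => some x
  inj := fun _ _ _ h => Option.some.inj h

/-- Host with three points and no hyperedge. -/
def host2 (t : ℕ) : Inst t where
  Z := Fin 3
  I := Empty
  e := fun i => i.elim
  inj := fun i => i.elim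

theorem exists_link {t : ℕ} (ht : 2 ≤ t) (ρ : Set (Fin t → Bool))
    (hcomp : ∀ s ∈ ρ, (fun a => !(s a)) ∈ ρ) (hconst : ∀ b : Bool, (fun _ => b) ∉ ρ)
    (hτ : (fun a : Fin t => decide (a.val = t - 1)) ∈ ρ) (m : ℕ)
    (E : Inst t) (u w : E.Z) (β : Bool) (hfar : E.FarPair m u w) (hsat : ∃ χ, E.Sat ρ χ)
    (hforce : ∀ χ, E.Sat ρ χ → (χ u = χ w ↔ β = true)) (β' : Bool) :
    ∃ (A : Inst t) (p q : A.Z), A.FarPair m p q ∧ (∃ χ, A.Sat ρ χ) ∧
      ∀ χ, A.Sat ρ χ → (χ p = χ q ↔ β' = true) := by
  by_cases hβ : β = β'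
  · subst hβ
    exact ⟨E, u, w, hfar, hsat, hforce⟩
  · cases β
    · have hβ' : β' = true := by cases β' <;> simp_all
      subst hβ'
      refine compose E (host2 t) Bool (fun j => if j then (0 : Fin 3) else (1 : Fin 3))
        (fun j => if j then (1 : Fin 3) else (2 : Fin 3)) u w ?_ ρ hcomp m false hfar hsat hforce
        (0 : Fin 3) (2 : Fin 3) ?_ (fun z : Fin 3 => decide (z = 1)) ?_ ?_ _ ?_
      · intro j
        cases j
        · change (1 : Fin 3) ≠ 2
          decide
        · change (0 : Fin 3) ≠ 1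
          decide
      · refine ⟨by change (0 : Fin 3) ≠ 2; decide, ?_⟩
        rintro S ⟨i, -⟩
        exact i.elim
      · intro i; exact i.elim
      · intro j
        cases j
        · change decide ((1 : Fin 3) = 1) = decide ((2 : Fin 3) = 1) ↔ false = true
          decide
        · change decide ((0 : Fin 3) = 1) = decide ((1 : Fin 3) = 1) ↔ false = true
          decide
      · intro χ _ h
        have h1 : χ (0 : Fin 3) = χ (1 : Fin 3) ↔ false = true := h true
        have h2 : χ (1 : Fin 3) = χ (2 : Fin 3) ↔ false = true := h false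
        have key : ∀ x0 x1 x2 : Bool, (x0 = x1 ↔ false = true) → (x1 = x2 ↔ false = true) →
            (x0 = x2 ↔ true = true) := by decide
        exact key _ _ _ h1 h2
    · have hβ' : β' = false := by cases β' <;> simp_all
      subst hβ'
      have ht0 : 0 < t := by omega
      refine compose E (host1 t) (Option {k : Fin t // k.val ≠ 0 ∧ k.val ≠ t - 1})
        (fun j => match j with
          | none => some (⟨t - 1, by omega⟩ : Fin t)
          | some _ => some (⟨0, ht0⟩ : Fin t))
        (fun j => match j with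
          | none => none
          | some k => some k.1) u w ?_ ρ hcomp m true hfar hsat hforce
        (some (⟨0, ht0⟩ : Fin t)) none ?_
        (fun z => match z with
          | none => true
          | some k => decide (k.val = t - 1)) ?_ ?_ _ ?_
      · rintro (_ | k)
        · exact Option.some_ne_none _
        · intro h
          apply k.2.1
          have := Option.some.inj h
          rw [← this]
      · refine ⟨Option.some_ne_none _, ?_⟩
        rintro S ⟨i, hi⟩ -
        refine ⟨i, hi, ?_⟩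
        have key : ∀ x, (host1 t).Touch S (some (⟨0, ht0⟩ : Fin t)) none i x →
            x = (⟨0, ht0⟩ : Fin t) := by
          rintro x (h | h | ⟨j, -, hne, -⟩)
          · exact Option.some.inj h
          · exact absurd h (Option.some_ne_none _)
          · exact absurd rfl hne
        intro x y hx hy
        rw [key x hx, key y hy]
      · intro i
        exact hτ
      · rintro (_ | k)
        · simp
        · have h1 : ¬ (0 = t - 1) := by omega
          have h2 := k.2.2
          simp [h1, h2]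
      · intro χ hχ h
        simp only [Bool.false_eq_true, iff_false]
        intro heq
        apply hconst (χ (some (⟨0, ht0⟩ : Fin t)))
        have h3 : (fun _ : Fin t => χ (some (⟨0, ht0⟩ : Fin t))) = fun x => χ (some x) := by
          funext x
          by_cases hx0 : x.val = 0
          · congr 2
            exact Fin.ext hx0.symm
          · by_cases hx1 : x.val = t - 1
            · have h4 : χ (some (⟨t - 1, by omega⟩ : Fin t)) = χ none := (h none).2 rfl
              have h5 : x = (⟨t - 1, by omega⟩ : Fin t) := Fin.ext hx1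
              rw [h5, h4, heq]
            · have h4 : χ (some (⟨0, ht0⟩ : Fin t)) = χ (some x) := (h (some ⟨x, hx0, hx1⟩)).2 rfl
              exact h4
        rw [h3]
        exact hχ ()

end Pool.Agent.Helper51.BEL
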